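import Pool.Agent.NCub.Stmts

/-!
# MP_7e2fab_co, squad NC, row KIT: lines through a point
-/

set_option autoImplicit false

namespace Pool.Agent.NCub.H69

open Pool.Agent.OM Pool.Agent.NCub

theorem hat_smul_eq {a b : ℝ × ℝ} {k : ℝ} (h : hat b = k • hat a) : b = a := by
  have h3 : (hat b).2.2 = (k • hat a).2.2 := by rw [h]
  have hk : k = 1 := by
    simp only [hat, Prod.smul_snd, smul_eq_mul, mul_one] at h3
    exact h3.symm
  rw [hk, one_smul] at h
  have h1 : (hat b).1 = (hat a).1 := by rw [h]
  have h2 : (hat b).2.1 = (hat a).2.1 := by rw [h]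
  exact Prod.ext h1 h2

theorem cross_ne {u v : V} (h : ∀ x y : ℝ, x • u + y • v = 0 → x = 0 ∧ y = 0) :
    ¬ (u.2.1 * v.2.2 - u.2.2 * v.2.1 = 0 ∧ u.1 * v.2.2 - u.2.2 * v.1 = 0 ∧
      u.1 * v.2.1 - u.2.1 * v.1 = 0) := by
  rintro ⟨h1, h2, h3⟩
  have e1 : v.1 • u + (-u.1) • v = 0 := by
    apply Prod.ext
    · simp only [Prod.fst_add, Prod.smul_fst, smul_eq_mul, Prod.fst_zero]; ring
    · apply Prod.ext
      · simp only [Prod.fst_add, Prod.snd_add, Prod.smul_fst, Prod.smul_snd, smul_eq_mul,
          Prod.fst_zero, Prod.snd_zero]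
        linear_combination -h3
      · simp only [Prod.snd_add, Prod.smul_snd, smul_eq_mul, Prod.snd_zero]
        linear_combination -h2
  have e2 : v.2.1 • u + (-u.2.1) • v = 0 := by
    apply Prod.ext
    · simp only [Prod.fst_add, Prod.smul_fst, smul_eq_mul, Prod.fst_zero]
      linear_combination h3
    · apply Prod.ext
      · simp only [Prod.fst_add, Prod.snd_add, Prod.smul_fst, Prod.smul_snd, smul_eq_mul,
          Prod.fst_zero, Prod.snd_zero]
        ring
      · simp only [Prod.snd_add, Prod.smul_snd, smul_eq_mul, Prod.snd_zero]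
        linear_combination -h1
  have e3 : v.2.2 • u + (-u.2.2) • v = 0 := by
    apply Prod.ext
    · simp only [Prod.fst_add, Prod.smul_fst, smul_eq_mul, Prod.fst_zero]
      linear_combination h2
    · apply Prod.ext
      · simp only [Prod.fst_add, Prod.snd_add, Prod.smul_fst, Prod.smul_snd, smul_eq_mul,
          Prod.fst_zero, Prod.snd_zero]
        linear_combination h1
      · simp only [Prod.snd_add, Prod.smul_snd, smul_eq_mul, Prod.snd_zero]
        ring
  have hv : v = 0 := Prod.ext (h _ _ e1).1 (Prod.ext (h _ _ e2).1 (h _ _ e3).1)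
  have := (h 0 1 (by rw [hv]; simp)).2
  exact one_ne_zero this

theorem det3_zero_of {u v p q r : V} (h : ∀ x y : ℝ, x • u + y • v = 0 → x = 0 ∧ y = 0)
    (hp : det3 p u v = 0) (hq : det3 q u v = 0) (hr : det3 r u v = 0) : det3 p q r = 0 := by
  by_contra hd
  apply cross_ne h
  unfold det3 at hp hq hr hd
  refine ⟨?_, ?_, ?_⟩
  · refine (mul_eq_zero.1 ?_).resolve_left hd
    linear_combination (q.2.1 * r.2.2 - q.2.2 * r.2.1) * hp - (p.2.1 * r.2.2 - p.2.2 * r.2.1) * hq +
      (p.2.1 * q.2.2 - p.2.2 * q.2.1) * hr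
  · refine (mul_eq_zero.1 ?_).resolve_left hd
    linear_combination (q.1 * r.2.2 - q.2.2 * r.1) * hp - (p.1 * r.2.2 - p.2.2 * r.1) * hq +
      (p.1 * q.2.2 - p.2.2 * q.1) * hr
  · refine (mul_eq_zero.1 ?_).resolve_left hd
    linear_combination (q.1 * r.2.1 - q.2.1 * r.1) * hp - (p.1 * r.2.1 - p.2.1 * r.1) * hq +
      (p.1 * q.2.1 - p.2.1 * q.1) * hr

/-- the value of the cubic at a proper combination of two of its points -/
theorem G_comb (c : Fin 10 → ℝ) {s t : ℝ} {u v w : V} (hw : w = s • u + t • v) (hu : G c u = 0)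
    (hv : G c v = 0) (hG : G c w = 0) (hs : s ≠ 0) (ht : t ≠ 0) :
    s * T c u u v + t * T c u v v = 0 := by
  rw [hw, G_line, hu, hv] at hG
  have h1 : (3 * s * t) * (s * T c u u v + t * T c u v v) = 0 := by linear_combination hG
  exact (mul_eq_zero.1 h1).resolve_left (by positivity)

theorem three (c : Fin 10 → ℝ) {u v : V} (h : ∀ x y : ℝ, x • u + y • v = 0 → x = 0 ∧ y = 0)
    (S : Finset (ℝ × ℝ)) (hS : ∀ x ∈ S, G c (hat x) = 0 ∧ det3 (hat x) u v = 0)
    (ha : ∃ a ∈ S, NoLine c (hat a)) : S.card ≤ 3 := by
  classical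
  obtain ⟨a, haS, hna⟩ := ha
  by_cases hb : ∃ b ∈ S, b ≠ a
  · obtain ⟨b, hbS, hba⟩ := hb
    by_cases hx : ∃ x ∈ S, x ≠ a ∧ x ≠ b
    · obtain ⟨x, hxS, hxa, hxb⟩ := hx
      have key : ∀ z ∈ S, z ≠ a → z ≠ b → ∃ s t : ℝ, s + t = 1 ∧ hat z = s • hat a + t • hat b ∧
          s * T c (hat a) (hat a) (hat b) + t * T c (hat a) (hat b) (hat b) = 0 := by
        intro z hz hza hzb
        have hcol : col a b z := by
          rw [col_iff]
          exact det3_zero_of h (hS a haS).2 (hS b hbS).2 (hS z hz).2
        obtain ⟨s, t, hst, hz1, hs, ht⟩ := col_comb hba.symm hcol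
        exact ⟨s, t, hst, hz1, G_comb c hz1 (hS a haS).1 (hS b hbS).1 (hS z hz).1 (hs hzb) (ht hza)⟩
      obtain ⟨s, t, hst, hx1, hx2⟩ := key x hxS hxa hxb
      have hne : T c (hat a) (hat a) (hat b) - T c (hat a) (hat b) (hat b) ≠ 0 := by
        intro h0
        have h1 : T c (hat a) (hat a) (hat b) = 0 := by
          linear_combination hx2 + t * h0 - T c (hat a) (hat a) (hat b) * hst
        have h2 : T c (hat a) (hat b) (hat b) = 0 := by linear_combination h1 - h0
        obtain ⟨k, hk⟩ := hna.2 (hat b) h1 h2 (hS b hbS).1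
        exact hba (hat_smul_eq hk)
      have hsub : S ⊆ {a, b, x} := by
        intro z hz
        rw [Finset.mem_insert, Finset.mem_insert, Finset.mem_singleton]
        by_contra hcon
        push Not at hcon
        obtain ⟨hza, hzb, hzx⟩ := hcon
        obtain ⟨s', t', hst', hz1, hz2⟩ := key z hz hza hzb
        apply hzx
        have ht : (t - t') * (T c (hat a) (hat a) (hat b) - T c (hat a) (hat b) (hat b)) = 0 := by
          linear_combination hz2 - hx2 + (hst - hst') * T c (hat a) (hat a) (hat b)
        have ht' : t = t' := by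
          have := (mul_eq_zero.1 ht).resolve_right hne
          linarith
        have hs' : s = s' := by linarith
        refine hat_smul_eq (k := 1) ?_
        rw [one_smul, hz1, hx1, ht', hs']
      exact (Finset.card_le_card hsub).trans Finset.card_le_three
    · push Not at hx
      have hsub : S ⊆ {a, b} := by
        intro z hz
        rw [Finset.mem_insert, Finset.mem_singleton]
        by_cases hza : z = a
        · exact Or.inl hza
        · exact Or.inr (hx z hz hza)
      exact (Finset.card_le_card hsub).trans (Finset.card_le_two.trans (by norm_num))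
  · push Not at hb
    have hsub : S ⊆ {a} := by
      intro z hz
      rw [Finset.mem_singleton]
      exact hb z hz
    exact (Finset.card_le_card hsub).trans (by simp)

/-- row KIT -/
theorem kit : KITStmt := by
  classical
  intro c X
  refine ⟨?_, fun u v h S hS ha => three c h S hS ha, ?_, ?_, ?_⟩
  · intro a ha y hy hya hfree
    unfold good at ha
    rw [Finset.mem_filter] at ha
    obtain ⟨haX, ⟨_, hom⟩, _⟩ := ha
    unfold ons at hy
    rw [Finset.mem_filter] at hy
    obtain ⟨w, hw, hwa, hwy, hc⟩ := hom y hy.1 hya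
    refine ⟨w, ?_, hwa, hwy, hc⟩
    unfold ons
    rw [Finset.mem_filter]
    refine ⟨hw, ?_⟩
    by_contra hG
    refine hfree w ?_ hc
    unfold offs
    rw [Finset.mem_filter]
    exact ⟨hw, hG⟩
  · intro a y w hna hy hw hya hwa hwy hT hcol
    obtain ⟨s, t, _, hw1, hs, ht⟩ := col_comb hya.symm hcol
    have h1 := G_comb c hw1 hna.1 hy hw (hs hwy) (ht hwa)
    rw [hT, mul_zero, zero_add] at h1
    have h2 := (mul_eq_zero.1 h1).resolve_left (ht hwa)
    obtain ⟨k, hk⟩ := hna.2 (hat y) hT h2 hy
    exact hya (hat_smul_eq hk)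
  · intro y hy S hS
    have hz : ∀ x ∈ S, ∃ z ∈ offs c X, col y x z := by
      intro x hx
      have h1 := (hS x hx).2.2.2
      unfold Free at h1
      push Not at h1
      exact h1
    choose! z hz1 hz2 using hz
    refine Finset.card_le_mul_card_image_of_maps_to hz1 2 ?_
    intro w hw
    have hwy : y ≠ w := by
      rintro rfl
      unfold offs at hw
      rw [Finset.mem_filter] at hw
      exact hw.2 hy
    by_cases hne : (S.filter (fun x => z x = w)).Nonempty
    · obtain ⟨x₀, hx₀⟩ := hne
      have hyn : y ∉ S.filter (fun x => z x = w) := by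
        intro h1
        rw [Finset.mem_filter] at h1
        exact (hS y h1.1).2.1 rfl
      have hind : ∀ p q : ℝ, p • hat y + q • hat w = 0 → p = 0 ∧ q = 0 := by
        intro p q hpq
        have e1 : (p • hat y + q • hat w).1 = 0 := by rw [hpq]; rfl
        have e2 : (p • hat y + q • hat w).2.1 = 0 := by rw [hpq]; rfl
        have e3 : (p • hat y + q • hat w).2.2 = 0 := by rw [hpq]; rfl
        simp only [hat, Prod.fst_add, Prod.snd_add, Prod.smul_fst, Prod.smul_snd, smul_eq_mul,
          mul_one] at e1 e2 e3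
        have hq : q = -p := by linarith
        rw [hq] at e1 e2
        have hp : p = 0 := by
          by_contra hp
          apply hwy
          apply Prod.ext
          · have : p * (y.1 - w.1) = 0 := by linear_combination e1
            have := (mul_eq_zero.1 this).resolve_left hp
            linarith
          · have : p * (y.2 - w.2) = 0 := by linear_combination e2
            have := (mul_eq_zero.1 this).resolve_left hp
            linarith
        exact ⟨hp, by rw [hq, hp, neg_zero]⟩
      have h3 := three c hind (insert y (S.filter (fun x => z x = w))) (by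
        intro x hx
        rw [Finset.mem_insert] at hx
        rcases hx with rfl | hx
        · refine ⟨hy, ?_⟩
          unfold det3
          ring
        · rw [Finset.mem_filter] at hx
          refine ⟨(hS x hx.1).1, ?_⟩
          have h4 := hz2 x hx.1
          rw [hx.2, col_iff] at h4
          unfold det3 at h4 ⊢
          linear_combination -h4) (by
        rw [Finset.mem_filter] at hx₀
        rcases (hS x₀ hx₀.1).2.2.1 with h4 | h4
        · exact ⟨x₀, Finset.mem_insert_of_mem (Finset.mem_filter.2 hx₀), h4⟩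
        · exact ⟨y, Finset.mem_insert_self _ _, h4⟩)
      rw [Finset.card_insert_of_notMem hyn] at h3
      omega
    · rw [Finset.not_nonempty_iff_eq_empty] at hne
      rw [hne]
      simp
  · intro a b hna hnb hsa hsb
    unfold Smooth at hsa hsb
    push Not at hsa hsb
    obtain ⟨k, hk⟩ := hna.2 (hat b) (hsa _) (by
      rw [T_swap12, T_swap23]
      exact hsb _) hnb.1
    exact (hat_smul_eq hk).symm

end Pool.Agent.NCub.H69
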